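import Pool.Agent.H701.TJ.Final

set_option autoImplicit false

/-!
# Set intersection queries: space `N ^ (1 + 1 / t)` for `t` adaptive joint probes, with free
one-sided memory

A family of sets of total size `N`, in two halves, is preprocessed. The memory has `s` cells of `w`
bits, which may be *arbitrary* functions of the whole family, and in addition an unlimited memory
with arbitrary functions of the first half alone and of the second half alone. A query names a set
of each half, and it is asked whether the two sets intersect (which is necessary in order to list
the intersection in time `O(T + op)`, `T` constant or polylogarithmic). The algorithm reads `t` of
the `s` joint cells, adaptively: the next address may be an *arbitrary* function of the query, of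
the first half, of public random bits and of the contents read so far. Then the query is answered
by an arbitrary communication protocol of at most `b` bits between the two halves, which may depend
on the contents; for instance, `T` adaptive probes of cells of the one-sided memory are such a
protocol with `b = w T`. If the error probability is at most `1 / (2 * 10 ^ 6)`, then

  `N ^ (t + 1) ≤ (10 ^ 19 * t ^ 8 * (w + L) ^ 2 * (b + w * t + L)) ^ (t + 1) * s ^ t`,
  `L = ⌈log₂ N⌉`, that is, `s ≥ (N / (b polylog)) ^ (1 + 1 / t)` if `w` and `t` are polylogarithmic.

This is the best lower bound which is known for arbitrary data structures with `t` probes
(`CellProbeTradeoff`), but now neither the one-sided memory counts as space nor its probes count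
as joint probes (`T` of them cost a factor `T ^ (1 + 1 / t)`), and the addresses may depend on one
half. In particular, `N polylog N` joint cells need `t = Ω(log N / log log N)` joint probes, if `w`
and `b` are polylogarithmic. For `t = 1` (space `N ^ 2`) this is `AdaptiveJointProbe`.

Proof. There are `k = N / polylog` sets in each half, and every element of the universe is in every
set independently with probability `α = 1 / polylog`.

(1) Direct product theorem for query graphs of bounded degree. Let `S` be a set of pairs `(i, j)`,
with at most `Δ` pairs in every row and column (but without any bound for the number of pairs,
in contrast to the case `t = 1`). Then for all rectangles `F × G` and all `q` with `4 q α Δ ≤ 1`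
  `P(F × G and all pairs in S are disjoint) ≤ exp (- α ^ 2 u |S| / 32) P(F × G) ^ (1 - 1 / q)`.
Two applications of Hölder's inequality (in integer powers) reduce this to the case that `F` and `G`
are everything and the sets are the unions of `q` independent copies; this case is proved by
induction on the number of columns.

(2) Cell sampling which keeps the degrees small. Given the families, the `k ^ 2` queries are
reduced to about `k ^ 2 / g` queries in each of `t` rounds, `g ^ t = k / polylog`; in every round
only queries are kept whose next cell is among `polylog k` cells (if `s ≤ g k`). The queries which
are left are put into bins of one cell: blocks of equally many queries in one row or one column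
with the same cell, as long as there are such blocks, and then one bin for every cell. The bins
are put into groups of `g` bins, and one random bin of every group is selected. A second moment
bound shows that nearly no rows and columns are overloaded. In the end about `k ^ 2 / g ^ t` =
`k polylog` queries are left, at most `polylog` in every row and column, and all their answers are
given by the contents of `k polylog'` cells and by protocols. Which queries are left depends only
on the first half, on the contents and on the selected bins; the union bound over the contents
and the bins is therefore possible, and contradicts (1).
-/

namespace Pool.Agent.Results.MP_f326ae_lc.AdaptiveJointProbes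

open Pool.Agent.H701.TJ

/-- For all `N`, `t`, `w`, `b` there are `k ≤ max 1 N` and `u` such that every random data structure
with `s` joint cells of `w` bits, `t` adaptive joint probes (the addresses are functions of the
query, of the first half and of the contents read before) and protocols of `b` bits, which decides
emptiness of the intersections for families of `2 k` subsets of a universe with `u` elements, of
total size at most `N`, satisfies
`N ^ (t + 1) ≤ (10 ^ 19 * t ^ 8 * (w + L) ^ 2 * (b + w * t + L)) ^ (t + 1) * s ^ t`, `L` being the
number `⌈log₂ N⌉`. -/
theorem result (N t w b : ℕ) (ht : 1 ≤ t) (hw : 1 ≤ w) :
    ∃ k u : ℕ, k ≤ max 1 N ∧
      u ≤ 10 ^ 23 * t ^ 8 * (w + Nat.clog 2 N) ^ 2 * (b + w * t + Nat.clog 2 N) ^ 2 ∧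
      ∀ (s : ℕ) (Ω : Type) [Fintype Ω] (p : Ω → ℝ) (D : Ω → PairTDS k u w s),
        SolvesPairT t b N p D →
        N ^ (t + 1) ≤ (10 ^ 19 * t ^ 8 * (w + Nat.clog 2 N) ^ 2 *
          (b + w * t + Nat.clog 2 N)) ^ (t + 1) * s ^ t :=
  pair_t N t w b ht hw

end Pool.Agent.Results.MP_f326ae_lc.AdaptiveJointProbes
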