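import Pool.Agent.H711.VO.Hered

/-!
# SetIntersection: on every proper hereditary class of families the conjectured tradeoff fails by a
power

Data structures for SetIntersection in the cell-probe model of the library result `DenseCore` of this
problem: a family of `m` subsets of `{0, …, U - 1}` of total size at most `N` is stored in `s` cells of
`w` bits, the query `(i, j)` is answered by an adaptive algorithm which depends on `i` and `j` only,
outputs the intersection of the sets number `i` and `j` and probes at most `a + b op` cells, `op` being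
the size of the intersection. `HasStructureFor m U N P s w a b` is this for the families with the
property `P` only.

Q1 asks whether the space `N ^ 2 / T` is optimal for the query time `T + op`. We consider classes of
families which are closed under deleting sets and elements and under renaming (`Hereditary`). The class
of all families is the one of Q1. We show that for EVERY other hereditary class the space
`N ^ 2 / T` is beaten by a power of `T`: there is `d` such that the space `N ^ 2 / T ^ (d / (d - 1))`, up
to the square of a logarithm, is sufficient, for all query times `T` between a logarithm and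
`N ^ ((d - 1) / d)`; for the last one the space is linear up to logarithms instead of
`N ^ (1 + 1 / d)`. Explicitly: if a single configuration of `k` sets on `l` elements is excluded, then
`d = k + ⌈log₂ l⌉ - 1` is possible. So the tradeoff of Q1 is either true for no hereditary class or for
the class of all families only, and every sequence of families which shows that the space
`N ^ 2 / T ^ (1 + ε)` is necessary must contain every finite family as an induced configuration.

Proof: a family without the given configuration has dual VC-dimension at most `d`. Sets with fewer than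
`T / log N` elements are read completely. There are at most `V = q ^ d` elements (`T ≈ q ^ (d - 1)`)
which are in more than `N / V` of the other sets; the common elements of smaller degree are stored for
all pairs, in space `N ^ 2 / V`. The elements of large degree are put in an order in which every set is
made of `O (q ^ (d - 1) + log N)` intervals (the packing lemma of Haussler, in the library, and the
reweighting of Welzl), and only the end points of the intervals are stored.
-/

set_option autoImplicit false

namespace Pool.Agent.Results.MP_f326ae_lc.HereditaryDichotomy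

open Pool.Agent.H711.VO

/-- (1) **Dichotomy.** A hereditary class `P` of families contains all families, or there is `d ≥ 2`
such that for all `m ≤ N` and all query times `802 (log₂ N + 1) ≤ T ≤ N ^ ((d - 1) / d)` there is a
structure for the families in `P` of `m` sets of total size at most `N`, with `s` cells of `w` bits
(`N ^ 2 < 2 ^ w`, `U ≤ 2 ^ w`), `s T ^ (d / (d - 1)) ≤ 2 ^ (d + 21) (log₂ N + 2) ^ 2 N ^ 2`, and at most
`T + op` probes.
(2) **One forbidden configuration.** If the union of the `k` sets of the family `C` has at most `l`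
elements, then this holds for the families which do not contain `C`, for every `d ≥ 2` with
`d ≥ k + ⌈log₂ l⌉ - 1`.
(3) **Bounded dual VC-dimension.** It holds for the families of dual VC-dimension at most `d`. In
discrete form: for `q ^ d ≤ N` there is a structure with `s q ^ d ≤ 2 (log₂ N + 2) ^ 2 N ^ 2` and at most
`401 q ^ (d - 1) + 6 log₂ N + op` probes. -/
theorem result :
    (∀ P : ∀ m : ℕ, (Fin m → Finset ℕ) → Prop, Hereditary P →
      (∀ (m : ℕ) (F : Fin m → Finset ℕ), P m F) ∨
      ∃ d : ℕ, 2 ≤ d ∧ ∀ m U N w T : ℕ, 2 ≤ N → N ^ 2 < 2 ^ w → U ≤ 2 ^ w → m ≤ N →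
        802 * (Nat.log 2 N + 1) ≤ T → T ^ d ≤ N ^ (d - 1) →
        ∃ s : ℕ, (s : ℝ) * (T : ℝ) ^ ((d : ℝ) / ((d : ℝ) - 1)) ≤
            2 ^ (d + 21) * ((Nat.log 2 N : ℝ) + 2) ^ 2 * (N : ℝ) ^ 2 ∧
          HasStructureFor m U N (P m) s w T 1) ∧
    (∀ (k l d : ℕ) (C : Fin k → Finset ℕ), (Finset.univ.biUnion C).card ≤ l → 2 ≤ d →
      k + Nat.clog 2 l ≤ d + 1 →
      ∀ m U N w T : ℕ, 2 ≤ N → N ^ 2 < 2 ^ w → U ≤ 2 ^ w → m ≤ N →
        802 * (Nat.log 2 N + 1) ≤ T → T ^ d ≤ N ^ (d - 1) →
        ∃ s : ℕ, (s : ℝ) * (T : ℝ) ^ ((d : ℝ) / ((d : ℝ) - 1)) ≤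
            2 ^ (d + 21) * ((Nat.log 2 N : ℝ) + 2) ^ 2 * (N : ℝ) ^ 2 ∧
          HasStructureFor m U N (fun F => ¬ Contains U F C) s w T 1) ∧
    (∀ d m U N w : ℕ, 2 ≤ d → 2 ≤ N → N ^ 2 < 2 ^ w → U ≤ 2 ^ w → m ≤ N →
      (∀ q : ℕ, 1 ≤ q → q ^ d ≤ N →
        ∃ s : ℕ, s * q ^ d ≤ 2 * (Nat.log 2 N + 2) ^ 2 * N ^ 2 ∧
          HasStructureFor m U N (DualVC d U) s w (401 * q ^ (d - 1) + 6 * Nat.log 2 N) 1) ∧
      ∀ T : ℕ, 802 * (Nat.log 2 N + 1) ≤ T → T ^ d ≤ N ^ (d - 1) →
        ∃ s : ℕ, (s : ℝ) * (T : ℝ) ^ ((d : ℝ) / ((d : ℝ) - 1)) ≤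
            2 ^ (d + 21) * ((Nat.log 2 N : ℝ) + 2) ^ 2 * (N : ℝ) ^ 2 ∧
          HasStructureFor m U N (DualVC d U) s w T 1) := by
  have key : ∀ (k l d : ℕ) (C : Fin k → Finset ℕ), (Finset.univ.biUnion C).card ≤ l → 2 ≤ d →
      k + Nat.clog 2 l ≤ d + 1 →
      ∀ m U N w T : ℕ, 2 ≤ N → N ^ 2 < 2 ^ w → U ≤ 2 ^ w → m ≤ N →
        802 * (Nat.log 2 N + 1) ≤ T → T ^ d ≤ N ^ (d - 1) →
        ∃ s : ℕ, (s : ℝ) * (T : ℝ) ^ ((d : ℝ) / ((d : ℝ) - 1)) ≤
            2 ^ (d + 21) * ((Nat.log 2 N : ℝ) + 2) ^ 2 * (N : ℝ) ^ 2 ∧
          HasStructureFor m U N (fun F => ¬ Contains U F C) s w T 1 := by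
    intro k l d C hl hd hkl m U N w T hN hw hUw hm hT hTN
    obtain ⟨s, hs, hs2⟩ := tradeoff (U := U) hd hN hw hUw hm hT hTN
    exact ⟨s, hs, hs2.weaken (le_refl _) (fun F _ h => dualVC_of_not_contains F C hl hkl h)⟩
  refine ⟨fun P hP => ?_, key, fun d m U N w hd hN hw hUw hm =>
    ⟨fun q hq hqN => upper hd hq hqN hN hw hUw hm,
      fun T hT hTN => tradeoff hd hN hw hUw hm hT hTN⟩⟩
  by_cases hall : ∀ (m : ℕ) (F : Fin m → Finset ℕ), P m F
  · exact Or.inl hall
  · right
    push Not at hall
    obtain ⟨k, C, hC⟩ := hall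
    refine ⟨k + Nat.clog 2 (Finset.univ.biUnion C).card + 2, by omega, ?_⟩
    intro m U N w T hN hw hUw hm hT hTN
    obtain ⟨s, hs, hs2⟩ := key k _ (k + Nat.clog 2 (Finset.univ.biUnion C).card + 2) C (le_refl _)
      (by omega) (by omega) m U N w T hN hw hUw hm hT hTN
    refine ⟨s, hs, hs2.weaken (le_refl _) (fun F _ h hc => hC (hP.of_contains h hc))⟩

end Pool.Agent.Results.MP_f326ae_lc.HereditaryDichotomy
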