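import Pool.Agent.H698.UD.Inter

set_option autoImplicit false

/-!
# SetIntersection for data structures that compute with unknown inputs

A family of `m` subsets of a universe with `n` elements is preprocessed. Each element is known to be
in a set, known not to be there, or this is unknown.  A data structure (`IDS`) has `s` cells and, for
each query `(i, j)`, `r` free places which do not depend on the set `i` and `r` free places which do
not depend on the set `j`; the contents are elements of an ordered set `D` of states of knowledge and are arbitrary functions of the
partial knowledge about the family which respect the order: more knowledge about the family gives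
more knowledge in the memory. `D` is any partially ordered set in which the elements below a given
one form a chain of real numbers. The query reads places adaptively and reports elements; an element
which is reported is still reported when the contents of the memory become larger.

* If `D` is the flat order over an arbitrary set `A` (words, tables, codes, ...) then the cells
  contain arbitrary functions of the family, or `unknown` if the knowledge does not determine them.
* If `D = ℝ` then these are the monotone data structures.

For all these models at once: for all `N` and query times `C (T + op)` there are `m` and `n` with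
`m n ≤ N` such that random structures which report the elements of the intersection, with advantage
`δ`, as soon as the elements of the sets are known, and which do not report other elements if
everything is known, have at least `δ ^ 3 N ^ 2 / (10 ^ 5 C ^ 2 T (log₂ ((N + r) / δ)) ^ 3)` cells:
the conjectured space, in addition to the free places. A three-valued table with `m ^ 2 n` cells
and `n` probes reports, for every partial knowledge, exactly the elements which are known to be in
both sets (for `n = T` and `m = N / T` these are `N ^ 2 / T` cells).

Proof. Declare the absent elements unknown. The contents of each cell are then below its contents for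
the family in which everything is known to be present, so that they lie in a chain, which can be
represented by real numbers. The conditions of the queries are translated by `Acc`. Then the bound
for monotone structures of `Pool.Graph.R_pool_sql_team_seeded_707910d6.T2H60.MH` applies.
-/

namespace Pool.Agent.Results.MP_f326ae_lc.UnknownInputStructures

open Pool.Agent.H698.HF Pool.Agent.H698.UD
open Flat (unknown known)

/-- (1) Let `N ≥ 2`, `0 < δ ≤ 1 / 2`, `C, T ≥ 1` and `144 C T log₂ ((N + r) / δ) ≤ δ N`. There are
`m`, `n` with `m n ≤ N` such that for every tree-like order `D` of states of knowledge every random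
structure over `D` with `s` cells and `2 r` free places for each query, which solves SetIntersection
with unknown inputs with advantage `δ` and query time `C (T + op)` on families of `m` subsets of a
universe with `n` elements (`ISolves p S δ C T`), satisfies
`δ ^ 3 N ^ 2 ≤ 10 ^ 5 C ^ 2 T s (log₂ ((N + r) / δ)) ^ 3`. (2) For all `m`, `n` some three-valued
structure with `m ^ 2 n` cells and without free places does this with `n` probes and without errors,
and for every partial knowledge it reports exactly what is known to be in both sets. (3) The real
numbers and all flat orders are tree-like. -/
theorem result :
    (∀ (N r : ℕ), 2 ≤ N → ∀ δ C T : ℝ, 0 < δ → δ ≤ 1 / 2 → 1 ≤ C → 1 ≤ T →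
      144 * (C * T) * Real.logb 2 ((N + r) / δ) ≤ δ * N →
      ∃ m n : ℕ, m * n ≤ N ∧ ∀ (D : Type) [PartialOrder D], TreeLike D →
        ∀ (s : ℕ) (Ω : Type) [Fintype Ω] (p : Ω → ℝ) (S : Ω → IDS D m n s r), ISolves p S δ C T →
          δ ^ 3 * (N : ℝ) ^ 2 ≤ 10 ^ 5 * C ^ 2 * T * s * (Real.logb 2 ((N + r) / δ)) ^ 3) ∧
    (∀ m n : ℕ, ∃ S : IDS (Flat Bool) m n (m * m * n) 0,
      ISolves (fun _ : Unit => 1) (fun _ => S) (1 / 2) 1 n ∧
      ∀ (P : Know (Fin m × Fin n)) (q : Fin m × Fin m), S.cost P q ≤ n ∧
        ∀ e, e ∈ S.out P q ↔
          ∀ F : Fin m → Finset (Fin n), Le P (full (mbr F)) → e ∈ F q.1 ∩ F q.2) ∧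
    TreeLike ℝ ∧ ∀ A : Type, TreeLike (Flat A) := by
  refine ⟨?_, fun m n => ⟨itable m n, itable_solves m n, fun P q => ⟨itable_cost P q,
    itable_exact P q⟩⟩, treeLike_real, fun A => Flat.treeLike⟩
  intro N r hN δ C T hδ hδ2 hC hT hNT
  obtain ⟨m, n, hmn, h⟩ := Pool.Agent.T2H60.MH.lower (r := r) hN hδ hδ2 hC hT hNT
  refine ⟨m, n, hmn, ?_⟩
  intro D _ hD s Ω _ p S hS
  obtain ⟨S', hS'⟩ := hS.real hD
  exact h s Ω p S' hS'

end Pool.Agent.Results.MP_f326ae_lc.UnknownInputStructures
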